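import Pool.Agent.Work.MP_ce2d68_du.Interface

set_option autoImplicit false

open Polynomial Filter Topology
open scoped ComplexConjugate

/-!
# Block HB: the alternative from the separation theorem
-/

namespace Pool.Agent.Work.MP_ce2d68_du.h32

open Pool.Agent.Work.MP_ce2d68_st

theorem p_HB : Stmt_HB := by
  classical
  intro G F φ d k m ε hG hε hd
  by_cases h2 : ∃ (μ : ℂ → ℝ) (s : ℝ), (∀ a, 0 ≤ μ a) ∧ 0 ≤ s ∧ ∑ a ∈ G, μ a = 1 ∧
      (∀ P ∈ F, -ε ≤ ∑ a ∈ G, μ a * φ P a + s * d P) ∧ ∑ a ∈ G, μ a * k a + s ≤ m + ε
  · right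
    exact h2
  left
  let S : Set (Option F → ℝ) := {y | ∃ (μ : ℂ → ℝ) (s : ℝ), (∀ a, 0 ≤ μ a) ∧ 0 ≤ s ∧
    ∑ a ∈ G, μ a = 1 ∧ y none = ∑ a ∈ G, μ a * k a + s ∧
    ∀ P : F, y (some P) = ∑ a ∈ G, μ a * φ P a + s * d P}
  let O : Set (Option F → ℝ) := {y | y none < m + ε ∧ ∀ P : F, -ε < y (some P)}
  have hOo : IsOpen O := by
    have h : O = {y | y none < m + ε} ∩ ⋂ P : F, {y | -ε < y (some P)} := by
      ext y
      simp [O]
    rw [h]
    exact (isOpen_lt (continuous_apply _) continuous_const).inter
      (isOpen_iInter_of_finite fun P => isOpen_lt continuous_const (continuous_apply _))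
  have hOc : Convex ℝ O := by
    intro y hy z hz a b ha hb hab
    refine ⟨?_, fun P => ?_⟩
    · have h1 := hy.1
      have h3 := hz.1
      simp only [Pi.add_apply, Pi.smul_apply, smul_eq_mul]
      rcases ha.eq_or_lt with h | h
      · subst h
        have : b = 1 := by linarith
        subst this
        linarith
      · have e1 := mul_lt_mul_of_pos_left h1 h
        have e2 := mul_le_mul_of_nonneg_left h3.le hb
        have e3 : (a + b) * (m + ε) = m + ε := by rw [hab, one_mul]
        linarith
    · have h1 := hy.2 P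
      have h3 := hz.2 P
      simp only [Pi.add_apply, Pi.smul_apply, smul_eq_mul]
      rcases ha.eq_or_lt with h | h
      · subst h
        have : b = 1 := by linarith
        subst this
        linarith
      · nlinarith
  have hSc : Convex ℝ S := by
    rintro y ⟨μ, s, hμ, hs, h1, hy0, hy⟩ z ⟨μ', s', hμ', hs', h1', hz0, hz⟩ a b ha hb hab
    refine ⟨fun c => a * μ c + b * μ' c, a * s + b * s', fun c => ?_, ?_, ?_, ?_, fun P => ?_⟩
    · exact add_nonneg (mul_nonneg ha (hμ c)) (mul_nonneg hb (hμ' c))
    · exact add_nonneg (mul_nonneg ha hs) (mul_nonneg hb hs')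
    · rw [Finset.sum_add_distrib, ← Finset.mul_sum, ← Finset.mul_sum, h1, h1']
      linarith
    · simp only [Pi.add_apply, Pi.smul_apply, smul_eq_mul]
      rw [hy0, hz0]
      have : ∑ c ∈ G, (a * μ c + b * μ' c) * k c =
          a * ∑ c ∈ G, μ c * k c + b * ∑ c ∈ G, μ' c * k c := by
        rw [Finset.mul_sum, Finset.mul_sum, ← Finset.sum_add_distrib]
        exact Finset.sum_congr rfl fun c _ => by ring
      rw [this]
      ring
    · simp only [Pi.add_apply, Pi.smul_apply, smul_eq_mul]
      rw [hy P, hz P]
      have : ∑ c ∈ G, (a * μ c + b * μ' c) * φ P c =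
          a * ∑ c ∈ G, μ c * φ P c + b * ∑ c ∈ G, μ' c * φ P c := by
        rw [Finset.mul_sum, Finset.mul_sum, ← Finset.sum_add_distrib]
        exact Finset.sum_congr rfl fun c _ => by ring
      rw [this]
      ring
  have hdisj : Disjoint O S := by
    rw [Set.disjoint_left]
    rintro y ⟨hy0, hy⟩ ⟨μ, s, hμ, hs, h1, e0, e⟩
    exact h2 ⟨μ, s, hμ, hs, h1, fun P hP => by
      have := hy ⟨P, hP⟩
      rw [e ⟨P, hP⟩] at this
      exact this.le, by rw [← e0]; exact hy0.le⟩
  obtain ⟨f, u, hfO, hfS⟩ := geometric_hahn_banach_open hOc hOo hSc hdisj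
  set lam : ℝ := f (fun j => if none = j then 1 else 0) with hlam
  set x : F → ℝ := fun P => - f (fun j => if some P = j then 1 else 0) with hx
  have hf : ∀ y : Option F → ℝ, f y = y none * lam - ∑ P : F, y (some P) * x P := by
    intro y
    have h := LinearMap.pi_apply_eq_sum_univ (f : (Option F → ℝ) →ₗ[ℝ] ℝ) y
    have h' : f y = ∑ i : Option F, y i * f (fun j => if i = j then 1 else 0) := by
      simpa using h
    rw [h', Fintype.sum_option]
    simp only [hx, mul_neg, Finset.sum_neg_distrib, sub_neg_eq_add]
    rfl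
  -- signs
  have hx0 : ∀ P, 0 ≤ x P := by
    intro P
    by_contra hneg
    rw [not_le] at hneg
    -- take y P large
    have key : ∀ R : ℝ, 0 ≤ R → (m) * lam + R * (-(x P)) < u := by
      intro R hR
      have h3 := hfO (fun j => if j = none then m else if j = some P then R else 0)
        ⟨by simp; exact hε, fun Q => by
          simp only [reduceCtorEq, if_false]
          split_ifs <;> linarith⟩
      rw [hf] at h3
      have h4 : ∑ Q : F, (if (some Q : Option F) = none then m else
          if some Q = some P then R else 0) * x Q = R * x P := by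
        rw [Finset.sum_eq_single P]
        · simp
        · intro Q _ hQ
          simp [hQ]
        · intro h
          exact absurd (Finset.mem_univ _) h
      rw [h4] at h3
      simp only [if_true] at h3
      linarith
    have h5 := key (max 0 ((u - m * lam) / (-(x P)))) (le_max_left _ _)
    have h6 : (u - m * lam) / (-(x P)) ≤ max 0 ((u - m * lam) / (-(x P))) := le_max_right _ _
    rw [div_le_iff₀ (by linarith)] at h6
    linarith
  have hlam0 : 0 ≤ lam := by
    by_contra hneg
    rw [not_le] at hneg
    have key : ∀ R : ℝ, 0 ≤ R → (m - R) * lam < u := by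
      intro R hR
      have h3 := hfO (fun j => if j = none then m - R else 0)
        ⟨by simp; linarith, fun Q => by
          simp only [reduceCtorEq, if_false]
          linarith⟩
      rw [hf] at h3
      simp only [if_true, reduceCtorEq, if_false, zero_mul, Finset.sum_const_zero, sub_zero] at h3
      exact h3
    have h5 := key (max 0 ((u - m * lam) / (-lam))) (le_max_left _ _)
    have h6 : (u - m * lam) / (-lam) ≤ max 0 ((u - m * lam) / (-lam)) := le_max_right _ _
    rw [div_le_iff₀ (by linarith)] at h6
    linarith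
  -- the value at the corner
  have hu : m * lam ≤ u := by
    have h3 := hfO (fun j => if j = none then m else 0)
      ⟨by simp; linarith, fun Q => by
        simp only [reduceCtorEq, if_false]
        linarith⟩
    rw [hf] at h3
    simp only [if_true, reduceCtorEq, if_false, zero_mul, Finset.sum_const_zero, sub_zero] at h3
    exact h3.le
  -- the points of `S`
  have hS' : ∀ a ∈ G, ∀ s : ℝ, 0 ≤ s →
      ∑ P : F, x P * φ P a + s * ∑ P : F, x P * d P ≤ lam * (k a - m + s) := by
    intro a ha s hs
    have h3 := hfS (fun j => match j with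
      | none => k a + s
      | some P => φ P a + s * d P) ⟨fun c => if c = a then 1 else 0, s, fun c => by
        show (0 : ℝ) ≤ if c = a then 1 else 0
        split_ifs <;> norm_num, hs, by simp [ha], by simp [ha], fun P => by simp [ha]⟩
    rw [hf] at h3
    simp only at h3
    have h4 : ∑ P : F, (φ P a + s * d P) * x P =
        ∑ P : F, x P * φ P a + s * ∑ P : F, x P * d P := by
      rw [Finset.mul_sum, ← Finset.sum_add_distrib]
      exact Finset.sum_congr rfl fun P _ => by ring
    rw [h4] at h3
    nlinarith
  obtain ⟨a₀, ha₀⟩ := hG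
  have hd1 : ∑ P : F, x P * d P ≤ lam := by
    by_contra hneg
    rw [not_le] at hneg
    set A := ∑ P : F, x P * φ P a₀
    set B := ∑ P : F, x P * d P
    have h5 := hS' a₀ ha₀ (max 0 ((lam * (k a₀ - m) - A) / (B - lam) + 1)) (le_max_left _ _)
    have h6 : (lam * (k a₀ - m) - A) / (B - lam) + 1 ≤
      max 0 ((lam * (k a₀ - m) - A) / (B - lam) + 1) := le_max_right _ _
    set s := max 0 ((lam * (k a₀ - m) - A) / (B - lam) + 1)
    have h7 : (lam * (k a₀ - m) - A) / (B - lam) ≤ s - 1 := by linarith
    rw [div_le_iff₀ (by linarith)] at h7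
    nlinarith
  have hlam1 : 0 < lam := by
    rcases hlam0.eq_or_lt with h | h
    · exfalso
      rw [← h] at hd1
      have hz : ∀ P : F, x P = 0 := by
        intro P
        have h3 : ∀ Q ∈ (Finset.univ : Finset F), 0 ≤ x Q * d Q := fun Q _ =>
          mul_nonneg (hx0 Q) (hd Q Q.2).le
        have h4 := (Finset.sum_eq_zero_iff_of_nonneg h3).1
          (le_antisymm hd1 (Finset.sum_nonneg h3)) P (Finset.mem_univ _)
        rcases mul_eq_zero.1 h4 with h5 | h5
        · exact h5
        · exact absurd h5 (hd P P.2).ne'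
      have hf0 : ∀ y, f y = 0 := by
        intro y
        rw [hf, ← h]
        simp [hz]
      have h3 := hfO (fun j => if j = none then m else 0)
        ⟨by simp; linarith, fun Q => by
          simp only [reduceCtorEq, if_false]
          linarith⟩
      have h4 := hfS (fun j => match j with
        | none => k a₀ + 0
        | some P => φ P a₀ + 0 * d P) ⟨fun c => if c = a₀ then 1 else 0, 0, fun c => by
          show (0 : ℝ) ≤ if c = a₀ then 1 else 0
          split_ifs <;> norm_num, le_rfl, by simp [ha₀], by simp [ha₀], fun P => by simp [ha₀]⟩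
      rw [hf0] at h3 h4
      linarith
    · exact h
  refine ⟨fun P => if h : P ∈ F then x ⟨P, h⟩ / lam else 0, fun P => ?_, ?_, fun a ha => ?_⟩
  · by_cases h : P ∈ F
    · simp only [h, dif_pos]
      exact div_nonneg (hx0 _) hlam1.le
    · simp [h]
  · have e : ∑ P ∈ F, (if h : P ∈ F then x ⟨P, h⟩ / lam else 0) * d P =
        (∑ P : F, x P * d P) / lam := by
      rw [← Finset.sum_coe_sort F, Finset.sum_div]
      exact Finset.sum_congr rfl fun P _ => by simp; ring
    rw [e, div_le_iff₀ hlam1]
    linarith
  · have e : ∑ P ∈ F, (if h : P ∈ F then x ⟨P, h⟩ / lam else 0) * φ P a =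
        (∑ P : F, x P * φ P a) / lam := by
      rw [← Finset.sum_coe_sort F, Finset.sum_div]
      exact Finset.sum_congr rfl fun P _ => by simp; ring
    rw [e, div_le_iff₀ hlam1]
    have := hS' a ha 0 le_rfl
    linarith

end Pool.Agent.Work.MP_ce2d68_du.h32
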