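import Pool.Agent.Work.MP_ce2d68_du.Interface

set_option autoImplicit false

open Polynomial Filter Topology
open scoped ComplexConjugate

/-!
# Block RND: rounding of symmetric weights
-/

namespace Pool.Agent.Work.MP_ce2d68_du.h32

open Pool.Agent.Work.MP_ce2d68_st

lemma log_max_le (x a b : ℂ) {t : ℝ} (ht : 0 < t) :
    Real.log (max ‖x - a‖ t) - Real.log (max ‖x - b‖ t) ≤ ‖a - b‖ / t := by
  have h1 : 0 < max ‖x - a‖ t := lt_max_of_lt_right ht
  have h2 : 0 < max ‖x - b‖ t := lt_max_of_lt_right ht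
  rw [← Real.log_div h1.ne' h2.ne']
  refine (Real.log_le_sub_one_of_pos (by positivity)).trans ?_
  rw [sub_le_iff_le_add, div_le_iff₀ h2]
  have h3 : t ≤ max ‖x - b‖ t := le_max_right _ _
  have h4 : ‖a - b‖ ≤ ‖a - b‖ / t * max ‖x - b‖ t := by
    calc ‖a - b‖ = ‖a - b‖ / t * t := by field_simp
      _ ≤ ‖a - b‖ / t * max ‖x - b‖ t := mul_le_mul_of_nonneg_left h3 (by positivity)
  have h5 : ‖x - a‖ ≤ ‖x - b‖ + ‖a - b‖ := by
    have h6 : x - a = (x - b) - (a - b) := by ring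
    rw [h6]
    exact norm_sub_le _ _
  rw [add_mul, one_mul]
  refine max_le ?_ ?_
  · have := le_max_left ‖x - b‖ t
    linarith
  · have : 0 ≤ ‖a - b‖ / t * max ‖x - b‖ t := by positivity
    linarith

lemma Lt_sub_le (hB : Stmt_NBAS) {P : ℤ[X]} (hP : IP P) (a b : ℂ) {t : ℝ} (ht : 0 < t) :
    Lt t P a - Lt t P b ≤ P.natDegree * (‖a - b‖ / t) := by
  have h1 : Lt t P a - Lt t P b =
      ∑ x ∈ rts P, (Real.log (max ‖x - a‖ t) - Real.log (max ‖x - b‖ t)) := by
    unfold Lt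
    rw [Finset.sum_sub_distrib]
    ring
  rw [h1, ← (hB P hP).2.1, ← nsmul_eq_mul]
  exact Finset.sum_le_card_nsmul _ _ _ (fun x _ => log_max_le x a b ht)

theorem p_RND (hB : Stmt_NBAS) : Stmt_RND := by
  classical
  intro G t ht h1G hG
  refine ⟨∑ a ∈ G, ‖a - 1‖ / t + 1, by positivity, ?_⟩
  intro μ ν hμ hμs hμ1
  set G' := G.erase 1 with hG'
  have hsum : ∀ f : ℂ → ℝ, ∑ a ∈ G, f a = ∑ a ∈ G', f a + f 1 := fun f =>
    (Finset.sum_erase_add G f h1G).symm
  have hsumN : ∀ f : ℂ → ℕ, ∑ a ∈ G, f a = ∑ a ∈ G', f a + f 1 := fun f =>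
    (Finset.sum_erase_add G f h1G).symm
  set fl : ℂ → ℕ := fun a => ⌊(ν : ℝ) * μ a⌋₊ with hfl
  have hν : (0 : ℝ) ≤ ν := Nat.cast_nonneg _
  have hfl1 : ∀ a, (fl a : ℝ) ≤ ν * μ a := fun a => Nat.floor_le (mul_nonneg hν (hμ a))
  have hfl2 : ∀ a, (ν : ℝ) * μ a - 1 ≤ fl a := fun a => by
    have := Nat.lt_floor_add_one ((ν : ℝ) * μ a)
    simp only [hfl]
    linarith
  have hle : ∑ a ∈ G', fl a ≤ ν := by
    have h1 : (∑ a ∈ G', (fl a : ℝ)) ≤ ∑ a ∈ G', ν * μ a := Finset.sum_le_sum fun a _ => hfl1 a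
    have h2 : ∑ a ∈ G', (ν : ℝ) * μ a ≤ ν := by
      rw [← Finset.mul_sum]
      have h3 := hsum μ
      rw [hμ1] at h3
      have h4 := hμ 1
      calc (ν : ℝ) * ∑ a ∈ G', μ a ≤ ν * 1 := mul_le_mul_of_nonneg_left (by linarith) hν
        _ = ν := mul_one _
    have h3 : ((∑ a ∈ G', fl a : ℕ) : ℝ) ≤ ν := by
      push_cast
      linarith
    exact_mod_cast h3
  set n : ℂ → ℕ := fun a => if a = 1 then ν - ∑ a ∈ G', fl a else fl a with hn
  have hn1 : n 1 = ν - ∑ a ∈ G', fl a := by simp [hn]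
  have hn' : ∀ a, a ≠ 1 → n a = fl a := fun a ha => by simp [hn, ha]
  have hn1r : (n 1 : ℝ) = ν - ∑ a ∈ G', (fl a : ℝ) := by
    rw [hn1, Nat.cast_sub hle]
    push_cast
    rfl
  have hnG : ∀ a ∈ G', n a = fl a := fun a ha => hn' a (Finset.ne_of_mem_erase ha)
  -- the difference at `1`
  have hd1 : (n 1 : ℝ) - ν * μ 1 = ∑ a ∈ G', (ν * μ a - fl a) := by
    rw [hn1r, Finset.sum_sub_distrib, ← Finset.mul_sum]
    have h3 := hsum μ
    rw [hμ1] at h3
    have h4 : ∑ a ∈ G', μ a = 1 - μ 1 := by linarith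
    rw [h4]
    ring
  have hcard : (G'.card : ℝ) + 1 = G.card := by
    have h := Finset.card_erase_add_one h1G
    exact_mod_cast h
  refine ⟨n, ?_, ?_, ?_, ?_⟩
  · intro a ha
    by_cases h : a = 1
    · subst h
      simp
    · have h' : conj a ≠ 1 := fun h2 => h (by
        have := congrArg (starRingEnd ℂ) h2
        simpa using this)
      rw [hn' a h, hn' _ h']
      simp only [hfl]
      rw [hμs a ha]
  · rw [hsumN, Finset.sum_congr rfl hnG, hn1]
    exact Nat.add_sub_of_le hle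
  · intro a ha
    by_cases h : a = 1
    · subst h
      rw [hd1, abs_of_nonneg (Finset.sum_nonneg fun a _ => by have := hfl1 a; linarith)]
      have h1 : ∑ a ∈ G', ((ν : ℝ) * μ a - fl a) ≤ G'.card • (1 : ℝ) :=
        Finset.sum_le_card_nsmul _ _ _ (fun a _ => by have := hfl2 a; linarith)
      rw [nsmul_eq_mul, mul_one] at h1
      linarith
    · rw [hn' a h, abs_le]
      have h0 : (0 : ℝ) ≤ G'.card := Nat.cast_nonneg _
      have := hfl1 a
      have := hfl2 a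
      constructor <;> linarith
  · intro P hP
    have e1 : ∑ a ∈ G, (n a : ℝ) * Lt t P a =
        ∑ a ∈ G', (fl a : ℝ) * Lt t P a + n 1 * Lt t P 1 := by
      rw [hsum]
      congr 1
      exact Finset.sum_congr rfl fun a ha => by rw [hnG a ha]
    have e2 : (ν : ℝ) * ∑ a ∈ G, μ a * Lt t P a =
        ∑ a ∈ G', (ν * μ a) * Lt t P a + (ν * μ 1) * Lt t P 1 := by
      rw [hsum, mul_add, Finset.mul_sum]
      congr 1
      · exact Finset.sum_congr rfl fun a _ => by ring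
      · ring
    have e3 : (ν : ℝ) * ∑ a ∈ G, μ a * Lt t P a - ∑ a ∈ G, (n a : ℝ) * Lt t P a =
        ∑ a ∈ G', (ν * μ a - fl a) * (Lt t P a - Lt t P 1) := by
      have e4 : ∑ a ∈ G', (ν * μ a - fl a) * (Lt t P a - Lt t P 1) =
          ∑ a ∈ G', (ν * μ a) * Lt t P a - ∑ a ∈ G', (fl a : ℝ) * Lt t P a -
            (∑ a ∈ G', (ν * μ a - fl a)) * Lt t P 1 := by
        rw [← Finset.sum_sub_distrib, Finset.sum_mul, ← Finset.sum_sub_distrib]
        exact Finset.sum_congr rfl fun a _ => by ring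
      rw [e4, ← hd1, e1, e2]
      ring
    have e5 : ∑ a ∈ G', (ν * μ a - fl a) * (Lt t P a - Lt t P 1) ≤
        ∑ a ∈ G, P.natDegree * (‖a - 1‖ / t) := by
      refine (Finset.sum_le_sum (g := fun a => P.natDegree * (‖a - 1‖ / t)) ?_).trans
        (Finset.sum_le_sum_of_subset_of_nonneg (Finset.erase_subset _ _)
          (fun a _ _ => by positivity))
      intro a _
      have h1 := Lt_sub_le hB hP a 1 ht
      have h2 := hfl1 a
      have h3 := hfl2 a
      have h0 : (0 : ℝ) ≤ P.natDegree * (‖a - 1‖ / t) := by positivity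
      calc (ν * μ a - fl a) * (Lt t P a - Lt t P 1)
          ≤ (ν * μ a - fl a) * (P.natDegree * (‖a - 1‖ / t)) :=
            mul_le_mul_of_nonneg_left h1 (by linarith)
        _ ≤ 1 * (P.natDegree * (‖a - 1‖ / t)) :=
            mul_le_mul_of_nonneg_right (by linarith) h0
        _ = _ := one_mul _
    rw [← Finset.mul_sum] at e5
    have h0 : (0 : ℝ) ≤ P.natDegree := Nat.cast_nonneg _
    nlinarith [e3, e5]

end Pool.Agent.Work.MP_ce2d68_du.h32
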